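import Pool.Agent.Y691.TU.Ratio

/-!
# Ratios of successive critical values and cubic hypersurfaces
-/

set_option autoImplicit false

open CategoryTheory CategoryTheory.Limits AlgebraicGeometry Pool.Agent.Y116.UV
  Pool.Agent.Y101.Th Pool.Agent.Y691.TU

namespace Pool.Agent.Results.MP_c63a07_nt.CubicHypersurfaces

universe v u

/-- **Ratios of successive critical values and cubic hypersurfaces.** Let `F` be a totally imaginary
number field of degree `d`, `Δ = Δ_F`, `E` a number field, `C` the category of motives for absolute
Hodge cycles over `F` with coefficients in `E`, `D` the graded pieces `gr^W_w H^j_c(X)` as objects of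
`C`, and `T` the data of the conjecture on successive critical values, with their known properties.
The conjecture is true for all motives in `C` if and only if it is true for all Tate twists of all
direct summands of the pieces of the smooth affine cubic hypersurfaces `t(x, y, z) = 1` for all
trilinear forms `t` over `F`. For each `n` it is true for all Tate twists of all direct summands of
the cohomology of the smooth projective schemes of dimension at most `n` over `F` if and only if this
is true for the `t` with a block of at most `n + 2` variables. -/
theorem result {F E : Type} [Field F] [NumberField F] [Field E] [NumberField E]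
    {C : Type u} [Category.{v} C] [Abelian C] {D : Graded F C} [D.L.IsEquivalence]
    {T : Completed E C} {d : ℕ} {Δ : ℂ} (hk : Resolution F) (hC : Semisimple C)
    (hD : IsGraded D) (hG : ∀ M : C, Gen D M) (hT : IsCompleted T D) :
    ((∀ M : C, RatioConjecture T d Δ M) ↔
      ∀ (a b c : ℕ) (t : Fin a → Fin b → Fin c → F) (w j : ℤ),
        Every D.L (RatioConjecture T d Δ) (D.H (hypS t) w j)) ∧
    ∀ n : ℕ,
      (∀ X : Sch F, SmProj X → topologicalKrullDim X.left ≤ n → ∀ i,
          Every D.L (RatioConjecture T d Δ) (D.H X i i)) ↔
        ∀ (a b c : ℕ) (t : Fin a → Fin b → Fin c → F), (a ≤ n + 2 ∨ b ≤ n + 2 ∨ c ≤ n + 2) →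
          ∀ w j, Every D.L (RatioConjecture T d Δ) (D.H (hypS t) w j) :=
  ⟨every_all hk hC hD hG (additive_ratio hT) (ratio_unit hT), fun n =>
    every_dim hk hC hD (additive_ratio hT) (ratio_unit hT) n⟩

end Pool.Agent.Results.MP_c63a07_nt.CubicHypersurfaces
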