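import Pool.Agent.Y456.LG.Span
import Pool.Agent.Y691.TU.Ratio

/-!
# Ratios of successive critical values and sparse linear sections of `GL_m`

Let `F` be a (totally imaginary) number field and `S` a finite set which contains `0` and `1` and spans `F`
over `ℚ`, for instance `S = {0, 1, θ, …, θ^(d-1)}` if `F = ℚ(θ)`. A sparse linear section of `GL_m` over `F`
is the scheme `U_M` (`secGL M`) of the points `x` of the affine space such that the matrix `M(x)` is
invertible, where `M` is a square matrix each of whose entries is an element of `S` or one of the variables,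
in which each variable occurs, with at most three nonzero entries in every row and in every column
(`IsPat S M`, `Thin M`), and with `det M ≠ 0` (`Good S M`).

`C` is the category of the pure motives over `F` with coefficients in `E`, given, with the pieces
`gr^W_w H^j_c(X)`, by its known properties (`Semisimple`, `IsGraded`, `IsTensor`); `h(U_M)` (`hSec D M`) is
the direct sum of the pieces of `U_M`.

1. Every motive `M₀` in `C` is, up to a Tate twist, a direct summand of `h(U_M)` for ONE sparse linear
   section `U_M`.
2. The conjecture on the ratios of successive critical values is true for all motives `M₀` if and only if it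
   is true for all Tate twists of all direct summands of `h(U_M)`, for each sparse linear section `U_M`.
3. For each `n` it is true for the twists of the summands of the cohomology of the smooth projective
   schemes over `F` of dimension at most `n` if and only if this is true for the pieces `gr^W_w H^j_c(U_M)`
   of the sparse linear sections of `GL_m`, all `m`, of dimension `n + 1`.
-/

set_option autoImplicit false

open CategoryTheory CategoryTheory.Limits MonoidalCategory AlgebraicGeometry MvPolynomial
  Pool.Agent.Y116.UV Pool.Agent.Y101.Th Pool.Agent.Y691.TU Pool.Agent.Z125.UN Pool.Agent.Y456.LG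

namespace Pool.Agent.Results.MP_c63a07_nt.OneLinearSection

universe v u

/-- The conjecture on the ratios of successive critical values is a question about the motives of the sparse
linear sections of `GL_m` with constants in a finite set. -/
theorem result {F E : Type} [Field F] [NumberField F] [Field E] [NumberField E] (S : Finset F)
    (h0 : 0 ∈ S) (h1 : 1 ∈ S) (hspan : Submodule.span ℚ (S : Set F) = ⊤)
    {C : Type u} [Category.{v} C] [Abelian C] [HasFiniteBiproducts C] [MonoidalCategory C]
    [MonoidalPreadditive C] [BraidedCategory C] {D : Graded F C} [D.L.IsEquivalence] {T₀ : C}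
    {T : Completed E C} {d : ℕ} {Δ : ℂ} (hk : Resolution F) (hC : Semisimple C)
    (hD : IsGraded D) (hT₀ : IsTensor D T₀) (hT : IsCompleted T D) :
    (∀ N : C, ∃ (n d m : ℕ) (M : Matrix (Fin m) (Fin m) (MvPolynomial (Fin d) F))
        (s : Pool.Agent.Y691.TU.tw D.L n N ⟶ hSec D M)
        (r : hSec D M ⟶ Pool.Agent.Y691.TU.tw D.L n N), Good (S : Set F) M ∧ s ≫ r = 𝟙 _) ∧
    ((∀ N : C, RatioConjecture T d Δ N) ↔
      ∀ (d' m : ℕ) (M : Matrix (Fin m) (Fin m) (MvPolynomial (Fin d') F)), Good (S : Set F) M →
        Every D.L (RatioConjecture T d Δ) (hSec D M)) ∧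
    ∀ n : ℕ,
      (∀ X : Sch F, SmProj X → topologicalKrullDim X.left ≤ n → ∀ i,
          Every D.L (RatioConjecture T d Δ) (D.H X i i)) ↔
        ∀ (m : ℕ) (M : Matrix (Fin m) (Fin m) (MvPolynomial (Fin (n + 1)) F)),
          IsPat (S : Set F) M → Thin M → ∀ w j : ℤ,
            Every D.L (RatioConjecture T d Δ) (D.H (secGL M) w j) := by
  have hS : Enough (S : Set F) :=
    enough_span (Finset.mem_coe.mpr h0) (Finset.mem_coe.mpr h1) hspan
  refine ⟨fun N => ?_, summ_iff hS hC hD hT₀, every_dim_sec hS hk hC hD (additive_ratio hT)
    (ratio_unit hT)⟩
  obtain ⟨n, d, m, M, h2, s, r, h3⟩ := summ_all hS hC hD hT₀ N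
  exact ⟨n, d, m, M, s, r, h2, h3⟩

end Pool.Agent.Results.MP_c63a07_nt.OneLinearSection
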