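import Pool.Agent.Y144.DL.EquiR

/-!
# Ratios of successive critical values: the formula for all twists by Artin representations is equivalent to a weak
# statement on ABELIAN twists

`F` is a totally imaginary field, `F' / F` a finite Galois extension with group `G`, `Z` is any abelian normal
subgroup of `G` (for instance `Z = 1`, or `G / Z` abelian if `F' / F` is metabelian), and `M` is (the family of
Frobenius traces of) a motive `M₀` of rank `n` over `F` with coefficients in a number field `K`; the primes of `F`
ramified in `F'` may be left out of `M.P`, which changes the values by elements of `K`. `E` is an algebraic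
extension of `K` which contains the roots of unity of order `|G|`. For a subgroup `H` and a character `χ` of `H`,
the twist by `Ind_H χ` is the motive `M₀ ⊗ χ` over the field `F'^H`. A term of `Good2 M Fr m (m + 1) θ` is
`L(s, M₀ ⊗ θ)`: for every embedding of the coefficients a meromorphic function on `ℂ` with this Euler product,
holomorphic and nonzero at `m` and `m + 1`. `γ`, `γ'` are the values of the archimedean factor of `M₀` at `m`,
`m + 1`, nonzero since `m` and `m + 1` are critical; since `F` is totally imaginary, those of `M₀ ⊗ θ` are
`γ ^ dim θ`, `γ' ^ dim θ`. `u` is `i^(d_F / 2) Δ_F`.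
-/

set_option autoImplicit false

open Pool.Agent.Y144.DL

/-- The following two statements are EQUIVALENT.

(A) (`RatioFor`) For ALL fields `K'` between `K` and `E` and all representations of `G` over `K'`, with character `θ`
and dimension `d`, the function `L(s, M₀ ⊗ θ)` continues meromorphically, is holomorphic and nonzero at `m` and
`m + 1`, and the formula of the question holds for `M₀ ⊗ θ`: `L(m, M₀ ⊗ θ) / L(m + 1, M₀ ⊗ θ) = (i^(d_F / 2) Δ_F) ^ (n d)`
in `(K' ⊗ ℂ) / K'^×` (completed `L`-functions).

(B) (`RatioTwists`) For each intermediate field `F'^H` of `F'^Z / F` over which `F'` is SOLVABLE the functions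
`L(s, M₀ ⊗ Ind_H χ)` (ABELIAN twists over `F'^H`) continue meromorphically, are holomorphic and nonzero at `m` and
`m + 1`, and the ratio `L(m) / L(m + 1)` is the same modulo `E^×` for `χ` and for the trivial character (no
relation between different fields); and the formula of the question holds for `M₀` itself up to a factor in `E`. -/
theorem Pool.Agent.Results.MP_c63a07_nt.RatiosOfArtinTwists.result
    {K E : Type} [Field K] [CharZero K] [Field E] [Algebra K E] [Algebra.IsAlgebraic K E]
    {G : Type} [Group G] [Finite G]
    (hE : HasEnoughRootsOfUnity E (Nat.card G)) (Z : Subgroup G) (hZ : Z.Normal)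
    (hZab : ∀ x ∈ Z, ∀ y ∈ Z, x * y = y * x) (M : EulerData K) (Fr : M.P → G) (m : ℂ)
    (γ γ' : (K →+* ℂ) → ℂ) (hγ : ∀ τ, γ τ ≠ 0) (hγ' : ∀ τ, γ' τ ≠ 0) (u : ℂ) (n : ℕ) :
    RatioFor E (G := G) M Fr m γ γ' u n ↔
      Nonempty (RatioTwists (fun H : Subgroup G => Group.IsSolvable H ∧ Z ≤ H) (M.map E) Fr m
        (lft E γ) (lft E γ') u n) :=
  equiv_ratio hE hZ hZab M Fr m γ γ' hγ hγ' u n
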